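import Pool.Agent.Run7.h465.RL.Law
import Pool.Agent.Run7.h465.RL.Pent

/-!
A third necessary condition for ranked lattices of intermediate models of Peano arithmetic: the
modular law at the models which are end-extended.
-/

set_option autoImplicit false
open FirstOrder FirstOrder.Language FirstOrder.Ring

namespace Pool.Agent.Results.MP_e2f1c5_lc.ModularLaw

/-- A model of Peano arithmetic, as in the frozen statements: negation is the identity, `x + 1` is
not zero, the successor is injective, and induction holds for all sets definable with parameters. -/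
structure IsModel (M : Type) [CommSemiring M] [Neg M] [CompatibleRing M] : Prop where
  neg : ∀ x : M, -x = x
  succ_ne : ∀ x : M, x + 1 ≠ 0
  succ_inj : ∀ x y : M, x + 1 = y + 1 → x = y
  ind : ∀ s : Set (Fin 1 → M), (Set.univ : Set M).Definable Language.ring s →
    (fun _ : Fin 1 => (0 : M)) ∈ s →
    (∀ x : M, (fun _ : Fin 1 => x) ∈ s → (fun _ : Fin 1 => x + 1) ∈ s) →
    ∀ x : M, (fun _ : Fin 1 => x) ∈ s

/-- `N` is an end extension of `K`. -/
def EndExtended {N : Type} [CommSemiring N] [Neg N] [CompatibleRing N]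
    (K : Language.ring.ElementarySubstructure N) : Prop :=
  ∀ x ∈ K, ∀ y : N, y ∉ K → ∃ z : N, x + z + 1 = y

section

variable {L : Type} [Lattice L]

/-- `c` is the least element of `C` above `x`. -/
def IsBar (C : Set L) (x c : L) : Prop := c ∈ C ∧ x ≤ c ∧ ∀ c' ∈ C, x ≤ c' → c ≤ c'

/-- Condition (A). -/
def CondA (C : Set L) : Prop := ∀ x y c : L, IsBar C x c → IsBar C y c → IsBar C (x ⊓ y) c

/-- Condition (B). -/
def CondB (C : Set L) : Prop := ∀ w x y z : L, x ⊔ w = z → y ⊔ w = z → x ⊓ w = y ⊓ w →
  (∃ c : L, IsBar C w c ∧ w = c ⊓ z) → x = y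

/-- The modular law at the elements of `C`. -/
def ModLaw (C : Set L) : Prop := ∀ c x u : L, IsBar C (x ⊓ c) c → u ≤ c →
  (x ⊔ u) ⊓ c = (x ⊓ c) ⊔ u

end

/-- Let `M ≺ N` be models of Peano arithmetic, let `L` be isomorphic to the lattice of the models
between `M` and `N` and let `C` correspond to the models of which `N` is an end extension. If
`c ∈ C` is the least element of `C` above `x ⊓ c` then `(x ⊔ u) ⊓ c = (x ⊓ c) ⊔ u` for all
`u ≤ c`. This does not follow from (A) and (B): the pentagon with a chain `C` of two elements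
satisfies (A) and (B) but not this law. -/
theorem result :
    (∀ (L : Type) [Lattice L] (C : Set L)
      (M : Type) [CommSemiring M] [Neg M] [CompatibleRing M], IsModel M →
      ∀ (N : Type) [CommSemiring N] [Neg N] [CompatibleRing N] (f : M ↪ₑ[Language.ring] N)
        (e : L ≃o {K : Language.ring.ElementarySubstructure N // Set.range f ⊆ (K : Set N)}),
        (∀ l : L, l ∈ C ↔ EndExtended (e l).1) → ModLaw C) ∧
    ∃ (L : Type) (_ : Lattice L) (_ : BoundedOrder L) (_ : Finite L) (C : Set L),
      IsChain (· ≤ ·) C ∧ (⊤ : L) ∈ C ∧ CondA C ∧ CondB C ∧ ¬ ModLaw C := by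
  refine ⟨?_, ?_⟩
  · rintro L _ C M _ _ _ ⟨hneg, h1, h2, h3⟩ N _ _ _ f e he c x u ⟨hc, _, hbar⟩ hu
    have hPA := Run7.h465.RL.model_of_ring h1 h2 h3
    have hnegN : ∀ x : N, -x = x := Run7.h465.RL.neg_of_emb hneg f
    obtain ⟨j, hj⟩ := Run7.h465.RL.exists_PAModel_of_emb hPA f
    subst hj
    exact Run7.h465.RL.lattice_law hnegN (Set.range f) C e he c x u hc hbar hu
  · refine ⟨Run7.h465.RL.Pent, inferInstance, inferInstance, inferInstance,
      Run7.h465.RL.Pent.C, Run7.h465.RL.Pent.chain, Run7.h465.RL.Pent.top_mem,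
      Run7.h465.RL.Pent.condA, Run7.h465.RL.Pent.condB, fun h => ?_⟩
    have h1 := h Run7.h465.RL.Pent.pc Run7.h465.RL.Pent.px Run7.h465.RL.Pent.pu
      ⟨Or.inl rfl, by decide, by
        rintro c' (rfl | rfl) _
        · exact le_rfl
        · exact le_top⟩ (by decide)
    exact absurd h1 (by decide)

end Pool.Agent.Results.MP_e2f1c5_lc.ModularLaw
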